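import Pool.Agent.Y41.EV.Main

/-!
# Exact variation of the critical interface

Critical bond percolation (`q = 1`) on `δ ℤ²` in a rectangle `D = (-A, B) × (0, H)`, with the
counterclockwise boundary arc from `a = t + i H` to `b = 0` wired and the other one dual-wired. The
interface is parametrised by its number of steps: `Rect.curve` is the piecewise linear curve on
`[0, 1]` run at constant speed, and `Rect.time` is the number of steps times `δ ^ (7/4)`; `Rect.law`
is the law of (curve, time). Weak limits exist along a subsequence of every sequence of meshes.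

Let `ψ(x) = x ^ (7/4) / (log log (1/x)) ^ (3/4)` (with `max 1 (log log (1/x))` in place of
`log log (1/x)`, which is the same for small `x`). For every weak limit `p = (f, T)`, almost surely:
`0 < T`; for ALL `s ≤ t` the `ψ`-variation of `f` on `[s, t]` (limit, as the mesh tends to zero, of
the supremum of the sums of `ψ(|f(τ i) - f(τ (i+1))|)` over the partitions) is between
`c T (t - s)` and `C T (t - s)`; for every function `φ` with `φ(0) = 0` and `φ / ψ → 0` at `0` the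
`φ`-variation is zero, and for every `φ` with `φ(0) = 0` and `φ / ψ → ∞` it is infinite on every arc,
in particular the `7/4`-variation is infinite on every arc; and at almost every time `t` the
increments obey a law of the iterated logarithm with the rate `h ^ (4/7) (log log (1/h)) ^ (3/7)`,
where `h = T |s - t|`. The constants `c`, `C` are universal (the same for all rectangles, all limits
and all realisations).

Definitions: `Pool.Agent.H984R4.NP.Model` (`Rect`, `pos`, `clamp`, `pl`, `X`, `Rect.dm`,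
`Rect.curve`, `Rect.time`, `Rect.law`), `Pool.Agent.H984R4.NP.Defs` (`Dm`, `Dm.edges`, `Dm.wir`,
`Dm.cfg`, `Dm.walk`, `Dm.len`) and `Pool.Agent.H984R3.Per.Defs` (states, `ae`, `mv`, `rt`, `nxt`,
`orb`).
-/

set_option autoImplicit false

namespace Pool.Agent.Results.MP_216314_pr.ExactVariation

open H984N MeasureTheory Filter Topology
open scoped ENNReal

/-- `log log (1/x)`, but at least `1`. -/
noncomputable def loglog (x : ℝ) : ℝ := max 1 (Real.log (Real.log (1 / x)))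

/-- `ψ(x) = x ^ (7/4) / (log log (1/x)) ^ (3/4)`. -/
noncomputable def psi (x : ℝ) : ℝ := x ^ (7/4 : ℝ) / loglog x ^ (3/4 : ℝ)

/-- `h ^ (4/7) (log log (1/h)) ^ (3/7)`. -/
noncomputable def rate (h : ℝ) : ℝ := h ^ (4/7 : ℝ) * loglog h ^ (3/7 : ℝ)

/-- The `φ`-variation of `f` on `[s, t]`: the limit, as `η → 0`, of the supremum of
`∑ φ(|f(τ i) - f(τ (i+1))|)` over the partitions `s = τ 0 ≤ τ 1 ≤ … ≤ τ n = t` of mesh at most
`η`. -/
noncomputable def variation (φ : ℝ → ℝ) (f : C(unitInterval, ℂ)) (s t : unitInterval) : ℝ≥0∞ :=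
  ⨅ η : ℝ, ⨅ _ : 0 < η, ⨆ n : ℕ, ⨆ τ : ℕ → unitInterval,
    ⨆ _ : Monotone τ ∧ τ 0 = s ∧ τ n = t ∧ ∀ i < n, (τ (i + 1) : ℝ) - τ i ≤ η,
    ENNReal.ofReal (∑ i ∈ Finset.range n, φ (dist (f (τ i)) (f (τ (i + 1)))))

theorem result : ∃ c C : ℝ, 0 < c ∧ 0 < C ∧ ∀ R : Rect,
    (∀ δ : ℕ → ℝ, (∀ i, 0 < δ i) → Tendsto δ atTop (𝓝 0) →
      ∃ k : ℕ → ℕ, StrictMono k ∧ ∃ μ : ProbabilityMeasure X,
        Tendsto (fun i => R.law (δ (k i))) atTop (𝓝 μ)) ∧
    ∀ δ : ℕ → ℝ, (∀ i, 0 < δ i) → Tendsto δ atTop (𝓝 0) → ∀ μ : ProbabilityMeasure X,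
      Tendsto (fun i => R.law (δ i)) atTop (𝓝 μ) →
      ∀ᵐ p ∂(μ : Measure X), 0 < p.2 ∧
        (∀ s t : unitInterval, s ≤ t →
          ENNReal.ofReal (c * p.2 * ((t : ℝ) - s)) ≤ variation psi p.1 s t ∧
          variation psi p.1 s t ≤ ENNReal.ofReal (C * p.2 * ((t : ℝ) - s))) ∧
        (∀ φ : ℝ → ℝ, φ 0 = 0 → Tendsto (fun x => φ x / psi x) (𝓝[>] 0) (𝓝 0) →
          ∀ s t : unitInterval, s ≤ t → variation φ p.1 s t = 0) ∧
        (∀ φ : ℝ → ℝ, φ 0 = 0 → Tendsto (fun x => φ x / psi x) (𝓝[>] 0) atTop →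
          ∀ s t : unitInterval, s < t → variation φ p.1 s t = ⊤) ∧
        (∀ s t : unitInterval, s < t → variation (fun x => x ^ (7/4 : ℝ)) p.1 s t = ⊤) ∧
        ∀ᵐ t : unitInterval,
          (∀ᶠ s : unitInterval in 𝓝 t, dist (p.1 s) (p.1 t) ≤ C * rate (p.2 * |(s : ℝ) - t|)) ∧
          ∃ᶠ s : unitInterval in 𝓝 t, c * rate (p.2 * |(s : ℝ) - t|) < dist (p.1 s) (p.1 t) := by
  obtain ⟨c, C, hc, hC, h⟩ := Pool.Agent.Y41.EV.goal
  refine ⟨c, C, hc, hC, fun R => ?_⟩
  obtain ⟨h1, h2⟩ := h R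
  refine ⟨h1, fun δ hδ hlim μ hμ => ?_⟩
  filter_upwards [h2 δ hδ hlim μ hμ] with p hp
  obtain ⟨hT, hU, hL, hlil⟩ := hp
  have top : ∀ φ : ℝ → ℝ, φ 0 = 0 → Tendsto (fun x => φ x / psi x) (𝓝[>] 0) atTop →
      ∀ s t : unitInterval, s < t → variation φ p.1 s t = ⊤ := fun φ h0 hφ s t hst =>
    Pool.Agent.Y41.EV.vgen_top hT hc hL h0.ge hφ hst
  refine ⟨hT, fun s t hst => ⟨Pool.Agent.Y41.EV.vpsi_ge hL hst,
    Pool.Agent.Y41.EV.vpsi_le hT hC hU hst⟩, fun φ h0 hφ s t hst =>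
    Pool.Agent.Y41.EV.vgen_zero hT hC hU h0.le hφ hst, top, top _ (by norm_num)
    Pool.Agent.Y41.EV.rpow_psi, hlil⟩

end Pool.Agent.Results.MP_216314_pr.ExactVariation
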