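import Pool.Agent.Y997.FB.Main
import Pool.Agent.Results.MP_6c8efb_pr.SpecialPoints
import Pool.Agent.Results.MP_fe58d8_pr.NaturalCurve
import Pool.Agent.Results.MP_fe58d8_pr.UniformDimension
import Pool.Agent.H443R3.BT.Fin
import Pool.Agent.Results.MP_fe58d8_pr.FrontierDimension

/-!
# The sides of the critical interface in a rectangle: exact dimension

Critical bond percolation (`q = 1`) on `δ ℤ²` in a rectangle `D = (-A, B) × (0, H)`, with the
counterclockwise boundary arc from `a = t + i H` to `b = 0` wired and the other one dual-wired. The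
interface is parametrised by its number of steps: `Rect.curve` is the piecewise linear curve on
`[0, 1]` run at constant speed, and `Rect.time` is the number of steps times `δ ^ (7/4)`; `Rect.law`
is the law of (curve, time). Weak limits exist along a subsequence of every sequence of meshes.

For every weak limit, almost surely:
* the union of the boundaries of all the components of the complement of the whole trace has
  Hausdorff dimension exactly `4/3`, also inside every neighbourhood of the end point, and the set of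
  the times at which the curve is there has dimension exactly `16/21`;
* the union, over ALL times `t` of `[0, 1]`, of the boundaries of all the components of the
  complement of the past `f [0, t]`, without the current point `f t`, has Hausdorff dimension
  exactly `4/3` as well, and the set of the times at which the curve is at such a point has dimension
  exactly `16/21`;
* for every fixed set `T` (no measurability is assumed), almost surely, the part of the second set
  in `T` and in the open rectangle has dimension at most `dimH T - 2/3` (the times: `4/7` of this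
  value), and it is empty if the `2/3`-dimensional Hausdorff measure of `T` is zero.
(Differences in `[0, ∞]` are truncated at `0`.)

The lower bounds are project FR of helper989 (`Pool.Agent.Y989.FR`, see the file
`MP_fe58d8_pr/FrontierDimension`), formalised with helper32, 48, 70, 108, 141, 153, 155, 220, 306,
363, 405, 448, 474, 484, 492, 496, 547, 681, 768, 811, 839, 914, 994.
-/

set_option autoImplicit false

namespace Pool.Agent.Results.MP_216314_pr.FrontierDimension

open H984N MeasureTheory Filter Topology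
open scoped ENNReal NNReal

/-- The union of the boundaries of all connected components of the complement of `K`. -/
def sides (K : Set ℂ) : Set ℂ := ⋃ x : ℂ, frontier (connectedComponentIn Kᶜ x)

/-- The points which at some time `t` lie on the boundary of a component of the complement of the
past `f [0, t]` and are different from the current point `f t`. -/
def sweptSides (f : C(unitInterval, ℂ)) : Set ℂ :=
  {w | ∃ t : unitInterval, w ∈ sides (f '' Set.Icc 0 t) ∧ w ≠ f t}

/-- The times at which `f` is in `S`. -/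
def times (f : C(unitInterval, ℂ)) (S : Set ℂ) : Set unitInterval := {s | f s ∈ S}

theorem icc_univ : Set.Icc (0 : unitInterval) 1 = Set.univ := by
  ext x
  simp only [Set.mem_Icc, Set.mem_univ, iff_true]
  exact ⟨x.2.1, x.2.2⟩

theorem result (R : Rect) :
    (∀ δ : ℕ → ℝ, (∀ i, 0 < δ i) → Tendsto δ atTop (𝓝 0) →
      ∃ φ : ℕ → ℕ, StrictMono φ ∧ ∃ μ : ProbabilityMeasure X,
        Tendsto (fun i => R.law (δ (φ i))) atTop (𝓝 μ)) ∧
    (∀ δ : ℕ → ℝ, (∀ i, 0 < δ i) → Tendsto δ atTop (𝓝 0) → ∀ μ : ProbabilityMeasure X,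
      Tendsto (fun i => R.law (δ i)) atTop (𝓝 μ) →
      (∀ᵐ p ∂(μ : Measure X),
        (dimH (sweptSides p.1) = 4 / 3 ∧ dimH (times p.1 (sweptSides p.1)) = 16 / 21) ∧
        (dimH (sides (Set.range p.1)) = 4 / 3 ∧
          dimH (times p.1 (sides (Set.range p.1))) = 16 / 21) ∧
        ∀ ρ : ℝ, 0 < ρ →
          dimH (sides (Set.range p.1) ∩ (R.D ∩ Metric.ball 0 ρ)) = 4 / 3 ∧
          dimH (times p.1 (sides (Set.range p.1) ∩ (R.D ∩ Metric.ball 0 ρ))) = 16 / 21) ∧
      ∀ T : Set ℂ, ∀ᵐ p ∂(μ : Measure X),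
        dimH (sweptSides p.1 ∩ T ∩ R.D) ≤ dimH T - 2 / 3 ∧
        dimH (times p.1 (sweptSides p.1 ∩ T ∩ R.D)) ≤ 4 / 7 * (dimH T - 2 / 3) ∧
        (μH[2 / 3] T = 0 → sweptSides p.1 ∩ T ∩ R.D = ∅)) := by
  obtain ⟨h1, h2⟩ := MP_fe58d8_pr.UniformDimension.result R
  refine ⟨h1, fun δ hδ hlim μ hμ => ?_⟩
  have htime : ∀ p : X, (∀ E : Set unitInterval, dimH (p.1 '' E) = 7 / 4 * dimH E) →
      ∀ S : Set ℂ, 7 / 4 * dimH (times p.1 S) ≤ dimH (Set.range p.1 ∩ S) := by
    intro p hp S
    rw [← hp (times p.1 S)]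
    apply dimH_mono
    rintro _ ⟨s, hs, rfl⟩
    exact ⟨⟨s, rfl⟩, hs⟩
  have key : ∀ T : Set ℂ, ∀ᵐ p ∂(μ : Measure X),
        dimH (sweptSides p.1 ∩ T ∩ R.D) ≤ dimH T - 2 / 3 ∧
        dimH (times p.1 (sweptSides p.1 ∩ T ∩ R.D)) ≤ 4 / 7 * (dimH T - 2 / 3) ∧
        (μH[2 / 3] T = 0 → sweptSides p.1 ∩ T ∩ R.D = ∅) := by
    intro T
    filter_upwards [h2 δ hδ hlim μ hμ,
      Pool.Agent.Y997.FB.fix3R Pool.Agent.W424.KI.u3 R hδ hlim hμ T] with p hp ha
    rw [MP_6c8efb_pr.SpecialPoints.e23] at ha
    have hs2 : sweptSides p.1 ∩ T ∩ R.D ⊆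
        (⋃ i : ℕ, Pool.Agent.TH990.HP.AccT (1 / ((i:ℝ) + 1)) p.1) ∩ T ∩ R.D :=
      Set.inter_subset_inter_left _ (Set.inter_subset_inter_left _
        (MP_6c8efb_pr.SpecialPoints.swept_sub p.1))
    have ha1 : dimH (sweptSides p.1 ∩ T ∩ R.D) ≤ dimH T - 2 / 3 := (dimH_mono hs2).trans ha.1
    exact ⟨ha1, MP_6c8efb_pr.SpecialPoints.solve
      ((htime p hp _).trans ((dimH_mono Set.inter_subset_right).trans ha1)),
      fun hT => Set.subset_empty_iff.1 (hs2.trans (ha.2 hT).le)⟩
  refine ⟨?_, key⟩
  filter_upwards [key Set.univ, h2 δ hδ hlim μ hμ,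
    (MP_fe58d8_pr.NaturalCurve.result R).2.2.2 δ hδ hlim μ hμ,
    H443B.dims R hδ hlim hμ, (MP_fe58d8_pr.FrontierDimension.result R).2 δ hδ hlim μ hμ] with
    p hk hp hq hd hfr
  obtain ⟨-, -, -, hcl, hdim, -⟩ := hq
  obtain ⟨d1, -⟩ := hd
  obtain ⟨q3, -, -⟩ := hk
  rw [MP_6c8efb_pr.SpecialPoints.dimC, MP_6c8efb_pr.SpecialPoints.e43, Set.inter_univ] at q3
  have hsub : ∀ K : Set ℂ, IsClosed K → sides K ⊆ K := by
    intro K hK w hw
    obtain ⟨x, hx⟩ := Set.mem_iUnion.1 hw
    by_contra hcon
    have h1 : w ∈ closure (connectedComponentIn Kᶜ x) := hx.1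
    have hopen : IsOpen (connectedComponentIn Kᶜ w) := hK.isOpen_compl.connectedComponentIn
    obtain ⟨y, hy1, hy2⟩ := mem_closure_iff.1 h1 _ hopen (mem_connectedComponentIn hcon)
    have h3 := connectedComponentIn_eq hy1
    have h4 := connectedComponentIn_eq hy2
    have h5 : w ∈ connectedComponentIn Kᶜ x := by
      rw [h4, ← h3]
      exact mem_connectedComponentIn hcon
    have h6 : IsOpen (connectedComponentIn Kᶜ x) := hK.isOpen_compl.connectedComponentIn
    have h7 := hx.2
    rw [h6.interior_eq] at h7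
    exact h7 h5
  have hrange : sweptSides p.1 ⊆ Set.range p.1 := by
    rintro w ⟨t, hw, -⟩
    have hK : IsClosed (p.1 '' Set.Icc 0 t) := (isCompact_Icc.image p.1.continuous).isClosed
    obtain ⟨s, -, rfl⟩ := hsub _ hK hw
    exact ⟨s, rfl⟩
  have hA : dimH (sweptSides p.1) ≤ 4 / 3 := by
    have h3 : sweptSides p.1 ⊆ (sweptSides p.1 ∩ R.D) ∪ (Set.range p.1 ∩ frontier R.D) := by
      intro z hz
      by_cases hzD : z ∈ R.D
      · exact Or.inl ⟨hz, hzD⟩
      · obtain ⟨s, h4⟩ := hrange hz
        refine Or.inr ⟨⟨s, h4⟩, ?_⟩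
        rw [frontier]
        refine ⟨h4 ▸ hcl s, fun h6 => hzD (interior_subset h6)⟩
    refine (dimH_mono h3).trans ?_
    rw [dimH_union, d1]
    refine max_le q3 ?_
    rw [← MP_6c8efb_pr.SpecialPoints.e23,
      show (4 / 3 : ℝ≥0∞) = ENNReal.ofReal (4 / 3) by
        rw [ENNReal.ofReal_div_of_pos (by norm_num)]; norm_num]
    exact ENNReal.ofReal_le_ofReal (by norm_num)
  have h4 : sides (Set.range p.1) ⊆ sweptSides p.1 ∪ {p.1 1} := by
    intro w hw
    by_cases hw1 : w = p.1 1
    · exact Or.inr hw1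
    · refine Or.inl ⟨1, ?_, hw1⟩
      rw [icc_univ, Set.image_univ]
      exact hw
  obtain ⟨f1, f2, f3⟩ := hfr
  have hB : 4 / 3 ≤ dimH (sweptSides p.1) := by
    have h5 : dimH (sides (Set.range p.1)) = 4 / 3 := f1
    have h6 := dimH_mono h4
    rw [h5, dimH_union, dimH_singleton] at h6
    rwa [max_eq_left zero_le] at h6
  have hAB : dimH (sweptSides p.1) = 4 / 3 := le_antisymm hA hB
  exact ⟨⟨hAB, MP_fe58d8_pr.FrontierDimension.times_dim hp hrange hAB⟩, ⟨f1, f2⟩, f3⟩

end Pool.Agent.Results.MP_216314_pr.FrontierDimension
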