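import Pool.Agent.Y995.HG.Zero

/-!
# The exact Hausdorff gauge of the critical interface

Critical bond percolation (`q = 1`) on `δ ℤ²` in a rectangle `D = (-A, B) × (0, H)`, with the
counterclockwise boundary arc from `a = t + i H` to `b = 0` wired and the other one dual-wired. The
interface is parametrised by its number of steps: `Rect.curve` is the piecewise linear curve on
`[0, 1]` run at constant speed, and `Rect.time` is the number of steps times `δ ^ (7/4)`; `Rect.law`
is the law of (curve, time). Weak limits exist along a subsequence of every sequence of meshes.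

For every weak limit `p = (f, T)`, almost surely, the Hausdorff measure with the gauge function
`r ^ (7/4) (log log (1/r)) ^ (1/8)` of the image `f '' S` of EVERY set `S` of times is between
`c T |S|` and `C T |S|`, with universal constants `c`, `C` (the same for all rectangles, all limits
and all realisations); in particular this measure is positive and finite on all arcs, it is
comparable with the natural time `T |{s | f s ∈ E}|` on all plane sets `E`, and the
`7/4`-dimensional Hausdorff measure of the whole curve is zero.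

Definitions: `Pool.Agent.H984R4.NP.Model` (`Rect`, `pos`, `clamp`, `pl`, `X`, `Rect.dm`,
`Rect.curve`, `Rect.time`, `Rect.law`), `Pool.Agent.H984R4.NP.Defs` (`Dm`, `Dm.edges`, `Dm.wir`,
`Dm.cfg`, `Dm.walk`, `Dm.len`) and `Pool.Agent.H984R3.Per.Defs` (states, `ae`, `mv`, `rt`, `nxt`,
`orb`). `MeasureTheory.Measure.mkMetric` is Mathlib's Hausdorff measure of a gauge function of the
diameter.
-/

set_option autoImplicit false

namespace Pool.Agent.Results.MP_216314_pr.HausdorffGauge

open H984N MeasureTheory Filter Topology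
open scoped ENNReal

/-- The gauge function `r ^ (7/4) (log log (1/r)) ^ (1/8)`. -/
noncomputable def gauge (r : ℝ≥0∞) : ℝ≥0∞ :=
  ENNReal.ofReal (r.toReal ^ (7/4 : ℝ) * Real.log (Real.log (1 / r.toReal)) ^ (1/8 : ℝ))

theorem result : ∃ c C : ℝ, 0 < c ∧ 0 < C ∧ ∀ R : Rect,
    (∀ δ : ℕ → ℝ, (∀ i, 0 < δ i) → Tendsto δ atTop (𝓝 0) →
      ∃ φ : ℕ → ℕ, StrictMono φ ∧ ∃ μ : ProbabilityMeasure X,
        Tendsto (fun i => R.law (δ (φ i))) atTop (𝓝 μ)) ∧
    ∀ δ : ℕ → ℝ, (∀ i, 0 < δ i) → Tendsto δ atTop (𝓝 0) → ∀ μ : ProbabilityMeasure X,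
      Tendsto (fun i => R.law (δ i)) atTop (𝓝 μ) →
      ∀ᵐ p ∂(μ : Measure X), 0 < p.2 ∧
        (∀ S : Set unitInterval,
          ENNReal.ofReal (c * p.2) * volume S ≤ Measure.mkMetric gauge (p.1 '' S) ∧
          Measure.mkMetric gauge (p.1 '' S) ≤ ENNReal.ofReal (C * p.2) * volume S) ∧
        Measure.hausdorffMeasure (7/4) (Set.range p.1) = 0 := by
  obtain ⟨c, C, hc, hC, h⟩ := Pool.Agent.Y995.HG.gauge_sets
  refine ⟨c, C, hc, hC, fun R => ?_⟩
  obtain ⟨h1, h2⟩ := h R
  refine ⟨h1, fun δ hδ hlim μ hμ => ?_⟩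
  filter_upwards [h2 δ hδ hlim μ hμ] with p hp
  refine ⟨hp.1, hp.2, ?_⟩
  refine Pool.Agent.Y995.HG.haus_zero ?_
  have h3 := (hp.2 Set.univ).2
  rw [Set.image_univ] at h3
  exact ne_top_of_le_ne_top (ENNReal.mul_ne_top ENNReal.ofReal_ne_top (measure_ne_top _ _)) h3

end Pool.Agent.Results.MP_216314_pr.HausdorffGauge
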