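import Pool.Agent.Y41.BT.Lim

/-!
# Which fixed boundary sets the interface touches

Critical bond percolation (`q = 1`) on `δ ℤ²` in a rectangle `D = (-A, B) × (0, H)`, with the
counterclockwise boundary arc from `a = t + i H` to `b = 0` wired and the other one dual-wired. For
every weak limit `μ`, as `δ → 0`, of the law of the trace of the exploration path (for the Hausdorff
metric on nonempty compact sets; such limits exist along a subsequence of every sequence of meshes)
and for the fixed subsets `S` of the open segment `(0, B)` of the free boundary arc: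

* if `S` is σ-compact, the essential supremum of the dimension of the set of the points of `S` which
  are touched is exactly `dim S - 1/3` (truncated at `0`);
* for every compact `A` in `(0, B)` there are constants `c`, `C`, the same for all weak limits, such
  that every compact subset `S` of `A` is touched with probability at least `c` times its capacity
  of order `1/3` (the supremum, over all probability measures `ν` on `S`, of the inverse of the
  energy `∬ |x - y| ^ (-1/3) dν dν`), and every subset `S` of `A` with probability at most `C` times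
  its Hausdorff content of order `1/3`.

Definitions (in `Pool.Agent.H934R2.Expl.Model`): `Rect` (the domain), `pt`, `Rect.verts`,
`Rect.edges` (the discrete domain), `Rect.wired`, `Rect.outer` (boundary condition), `Rect.clu`,
`Rect.dclu` (the two clusters), `Rect.path` (trace of the exploration path), `Rect.law` (its law,
all configurations of the edges being equally likely).
-/

set_option autoImplicit false

namespace Pool.Agent.Results.MP_216314_pr.TouchedBoundarySets

open MeasureTheory TopologicalSpace Filter Topology H934E Metric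
open Pool.Agent.TH966
open scoped ENNReal

/-- The open segment `(0, B)` of the free boundary arc. -/
def freeSide (R : Rect) : Set ℂ := {z | z.im = 0 ∧ 0 < z.re ∧ z.re < R.B}

theorem e3 : ENNReal.ofReal (1 / 3) = 1 / 3 := by
  rw [ENNReal.ofReal_div_of_pos (by norm_num)]
  norm_num

theorem result (R : Rect) :
    (∀ (δ : ℕ → ℝ) (hδ : ∀ i, 0 < δ i), Tendsto δ atTop (𝓝 0) →
      ∃ φ : ℕ → ℕ, StrictMono φ ∧ ∃ μ : ProbabilityMeasure (NonemptyCompacts ℂ),
        Tendsto (fun i => R.law (hδ (φ i))) atTop (𝓝 μ)) ∧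
    (∀ (δ : ℕ → ℝ) (hδ : ∀ i, 0 < δ i), Tendsto δ atTop (𝓝 0) →
      ∀ μ : ProbabilityMeasure (NonemptyCompacts ℂ),
        Tendsto (fun i => R.law (hδ i)) atTop (𝓝 μ) →
        ∀ S : Set ℂ, IsSigmaCompact S → S ⊆ freeSide R →
          essSup (fun K : NonemptyCompacts ℂ => dimH ((K : Set ℂ) ∩ S))
            (μ : Measure (NonemptyCompacts ℂ)) = dimH S - 1 / 3) ∧
    (∀ A : Set ℂ, IsCompact A → A ⊆ freeSide R → ∃ c C : ℝ, 0 < c ∧ 0 < C ∧
      ∀ (δ : ℕ → ℝ) (hδ : ∀ i, 0 < δ i), Tendsto δ atTop (𝓝 0) →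
      ∀ μ : ProbabilityMeasure (NonemptyCompacts ℂ),
        Tendsto (fun i => R.law (hδ i)) atTop (𝓝 μ) →
        (∀ S : Set ℂ, IsCompact S → S ⊆ A → ∀ ν : Measure ℂ, IsProbabilityMeasure ν → ν Sᶜ = 0 →
          ENNReal.ofReal c / (∫⁻ x, ∫⁻ y, (edist x y) ^ (-(1 / 3) : ℝ) ∂ν ∂ν) ≤
            (μ : Measure (NonemptyCompacts ℂ)) {K | ((K : Set ℂ) ∩ S).Nonempty}) ∧
        (∀ S : Set ℂ, S ⊆ A → ∀ t : ℕ → Set ℂ, S ⊆ ⋃ n, t n →
          (μ : Measure (NonemptyCompacts ℂ)) {K | ((K : Set ℂ) ∩ S).Nonempty} ≤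
            ENNReal.ofReal C * ∑' n, (ediam (t n)) ^ (1 / 3 : ℝ))) := by
  refine ⟨fun δ hδ hlim => R.exists_limit hδ hlim, ?_, ?_⟩
  · intro δ hδ hlim μ hμ S hS hSD
    rw [← e3]
    refine GB.ess_gen (μ := (μ : Measure (NonemptyCompacts ℂ)))
      (K := fun K : NonemptyCompacts ℂ => (K : Set ℂ)) (fun K => K.isCompact) GB.hit_meas
      (by norm_num) hS ?_
    intro A hA hAc
    obtain ⟨c, C, r0, hc, hC, hr0, h⟩ := Pool.Agent.Y41.BT.side_bds R hAc (hA.trans hSD)
    exact ⟨c, C, r0, hc, hC, hr0, h δ hδ hlim μ hμ⟩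
  · intro A hA hAD
    obtain ⟨c, C, r0, hc, hC, hr0, h⟩ := Pool.Agent.Y41.BT.side_bds R hA hAD
    refine ⟨c ^ 2 / (8 * (C * 3 ^ (1 / 3 : ℝ))), max C (r0 ^ (-(1 / 3 : ℝ))), by positivity,
      lt_max_of_lt_left hC, ?_⟩
    intro δ hδ hlim μ hμ
    have hb := h δ hδ hlim μ hμ
    refine ⟨?_, ?_⟩
    · intro S hS hSA ν hν hν0
      exact GB.cap_gen (μ := (μ : Measure (NonemptyCompacts ℂ)))
        (K := fun K : NonemptyCompacts ℂ => (K : Set ℂ)) (fun K => K.isCompact) GB.hit_meas
        (by norm_num) hc hC hr0 hb hS hSA hν0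
    · intro S hSA t ht
      exact GB.content_gen (μ := (μ : Measure (NonemptyCompacts ℂ)))
        (K := fun K : NonemptyCompacts ℂ => (K : Set ℂ)) (by norm_num) hC hr0 hb hSA t ht

end Pool.Agent.Results.MP_216314_pr.TouchedBoundarySets
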